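import Mathlib

/-!
The ideal of Lebesgue null sets and the ordering of functions from `ℕ` to `ℕ`: every null set
bounds only countably many functions, so that the additivity of the null ideal is at most the
bounding number and its cofinality is at least the dominating number.
-/

set_option autoImplicit false

namespace Pool.Agent.Y960.NA

open Set Filter MeasureTheory Topology Cardinal
open scoped ENNReal

/-- Open sets of measure at most `2 ^ (-n)` which have density `2 ^ (-n)` in all dyadic intervals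
of length `2 ^ (-j)` in the unit interval. -/
def UU (n j : ℕ) : Set ℝ :=
  ⋃ i ∈ Finset.range (2 ^ j), Ioo ((i : ℝ) / 2 ^ j) ((i + (1 / 2) ^ n) / 2 ^ j)

lemma isOpen_UU (n j : ℕ) : IsOpen (UU n j) := isOpen_biUnion fun _ _ => isOpen_Ioo

lemma volume_piece (n j i : ℕ) :
    volume (Ioo ((i : ℝ) / 2 ^ j) ((i + (1 / 2) ^ n) / 2 ^ j)) =
      ENNReal.ofReal ((1 / 2) ^ n / 2 ^ j) := by
  rw [Real.volume_Ioo]
  congr 1
  ring

lemma volume_UU (n j : ℕ) : volume (UU n j) ≤ (2⁻¹ : ℝ≥0∞) ^ n := by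
  unfold UU
  refine (measure_biUnion_finset_le _ _).trans ?_
  rw [Finset.sum_congr rfl fun i _ => volume_piece n j i, Finset.sum_const, Finset.card_range,
    nsmul_eq_mul]
  have h1 : ((2 ^ j : ℕ) : ℝ≥0∞) = ENNReal.ofReal (2 ^ j) := by
    rw [ENNReal.ofReal_pow (by norm_num), ENNReal.ofReal_ofNat]
    push_cast
    rfl
  rw [h1, ← ENNReal.ofReal_mul (by positivity)]
  have h2 : (2 : ℝ) ^ j * ((1 / 2) ^ n / 2 ^ j) = (2⁻¹) ^ n := by
    field_simp
  rw [h2, ENNReal.ofReal_pow (by norm_num), ENNReal.ofReal_inv_of_pos (by norm_num),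
    ENNReal.ofReal_ofNat]

/-- The null set of a function. -/
def MM (g : ℕ → ℕ) : Set ℝ := limsup (fun n => UU n (g n)) atTop

lemma volume_MM (g : ℕ → ℕ) : volume (MM g) = 0 := by
  apply measure_limsup_atTop_eq_zero
  apply ne_top_of_le_ne_top (b := ∑' n : ℕ, (2⁻¹ : ℝ≥0∞) ^ n)
  · rw [ENNReal.tsum_geometric]
    norm_num
  · exact ENNReal.tsum_le_tsum fun n => volume_UU n _

/-- Sets of positive measure meet the sets `UU n j` for all large `j`. -/
lemma meets {A : Set ℝ} (hA : MeasurableSet A) (hA1 : A ⊆ Ioo 0 1) (hpos : volume A ≠ 0) (n : ℕ) :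
    ∃ J : ℕ, ∀ j, J ≤ j → (A ∩ UU n j).Nonempty := by
  have h1 := IsUnifLocDoublingMeasure.ae_tendsto_measure_inter_div (volume : Measure ℝ) A 1
  have h2 : ∃ x ∈ A, ∀ {ι : Type} {l : Filter ι} (w : ι → ℝ) (δ : ι → ℝ)
      (_ : Tendsto δ l (𝓝[>] 0)) (_ : ∀ᶠ j in l, x ∈ Metric.closedBall (w j) (1 * δ j)),
      Tendsto (fun j => volume (A ∩ Metric.closedBall (w j) (δ j)) /
        volume (Metric.closedBall (w j) (δ j))) l (𝓝 1) := by
    by_contra hcon
    push Not at hcon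
    apply hpos
    rw [ae_restrict_iff' hA] at h1
    refine measure_mono_null ?_ h1
    intro x hx hx2
    obtain ⟨ι, l, w, δ, h3, h4, h5⟩ := hcon x hx
    exact h5 (hx2 hx w δ h3 h4)
  obtain ⟨x, hxA, hx⟩ := h2
  obtain ⟨hx0, hx1⟩ := hA1 hxA
  have hp : ∀ j : ℕ, (0 : ℝ) < 2 ^ j := fun j => by positivity
  set ii : ℕ → ℕ := fun j => ⌊2 ^ j * x⌋₊ with hii
  have hi1 : ∀ j, (ii j : ℝ) ≤ 2 ^ j * x := fun j => Nat.floor_le (by positivity)
  have hi2 : ∀ j, 2 ^ j * x < ii j + 1 := fun j => Nat.lt_floor_add_one _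
  have hcb : ∀ j, Metric.closedBall (((ii j : ℝ) + 1 / 2) / 2 ^ j) (1 / 2 / 2 ^ j) =
      Icc ((ii j : ℝ) / 2 ^ j) ((ii j + 1) / 2 ^ j) := by
    intro j
    rw [Real.closedBall_eq_Icc]
    congr 1 <;> ring
  have ht := hx (l := atTop) (fun j : ℕ => ((ii j : ℝ) + 1 / 2) / 2 ^ j)
    (fun j : ℕ => 1 / 2 / 2 ^ j) (by
      rw [tendsto_nhdsWithin_iff]
      constructor
      · have h3 : Tendsto (fun j : ℕ => (1 / 2 : ℝ) * (1 / 2) ^ j) atTop (𝓝 ((1 / 2) * 0)) :=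
          (tendsto_pow_atTop_nhds_zero_of_lt_one (by norm_num) (by norm_num)).const_mul _
        rw [mul_zero] at h3
        refine h3.congr fun j => ?_
        rw [one_div_pow]
        ring
      · exact Eventually.of_forall fun j => by
          show (0 : ℝ) < _
          positivity)
    (Eventually.of_forall fun j => by
      rw [one_mul, hcb]
      constructor
      · rw [div_le_iff₀ (hp j), mul_comm x]
        exact hi1 j
      · rw [le_div_iff₀ (hp j), mul_comm x]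
        exact (hi2 j).le)
  have ht2 := (ENNReal.tendsto_toReal ENNReal.one_ne_top).comp ht
  rw [ENNReal.toReal_one] at ht2
  have h3 : ∀ᶠ j : ℕ in atTop, 1 - (1 / 2 : ℝ) ^ n < (volume (A ∩ Metric.closedBall
      (((ii j : ℝ) + 1 / 2) / 2 ^ j) (1 / 2 / 2 ^ j)) / volume (Metric.closedBall
      (((ii j : ℝ) + 1 / 2) / 2 ^ j) (1 / 2 / 2 ^ j))).toReal := by
    refine ht2.eventually (lt_mem_nhds ?_)
    have : (0 : ℝ) < (1 / 2) ^ n := by positivity
    linarith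
  obtain ⟨J, hJ⟩ := eventually_atTop.1 h3
  refine ⟨J, fun j hj => ?_⟩
  by_contra hcon
  rw [not_nonempty_iff_eq_empty] at hcon
  have h4 := hJ j hj
  rw [hcb, ENNReal.toReal_div, Real.volume_Icc,
    ENNReal.toReal_ofReal (by rw [← sub_div]; have := hp j; rw [add_sub_cancel_left]; positivity)] at h4
  have h5 : ((ii j : ℝ) + 1) / 2 ^ j - ii j / 2 ^ j = 1 / 2 ^ j := by ring
  rw [h5, lt_div_iff₀ (by have := hp j; positivity)] at h4
  have hlt : ii j < 2 ^ j := by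
    have h6 : (ii j : ℝ) < 2 ^ j := by
      refine (hi1 j).trans_lt ?_
      have := mul_lt_mul_of_pos_left hx1 (hp j)
      rwa [mul_one] at this
    exact_mod_cast h6
  have hsub : Ioo ((ii j : ℝ) / 2 ^ j) ((ii j + (1 / 2) ^ n) / 2 ^ j) ⊆ UU n j := by
    intro z hz
    exact mem_iUnion₂.2 ⟨ii j, Finset.mem_range.2 hlt, hz⟩
  have hdisj : Disjoint (A ∩ Icc ((ii j : ℝ) / 2 ^ j) ((ii j + 1) / 2 ^ j))
      (Ioo ((ii j : ℝ) / 2 ^ j) ((ii j + (1 / 2) ^ n) / 2 ^ j)) := by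
    rw [Set.disjoint_left]
    intro z hz1 hz2
    have : z ∈ A ∩ UU n j := ⟨hz1.1, hsub hz2⟩
    rw [hcon] at this
    exact this
  have hpow : (1 / 2 : ℝ) ^ n ≤ 1 := pow_le_one₀ (by norm_num) (by norm_num)
  have h7 : volume (A ∩ Icc ((ii j : ℝ) / 2 ^ j) ((ii j + 1) / 2 ^ j)) +
      volume (Ioo ((ii j : ℝ) / 2 ^ j) ((ii j + (1 / 2) ^ n) / 2 ^ j)) ≤
      volume (Icc ((ii j : ℝ) / 2 ^ j) ((ii j + 1) / 2 ^ j)) := by
    rw [← measure_union hdisj measurableSet_Ioo]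
    apply measure_mono
    rintro z (hz | hz)
    · exact hz.2
    · refine ⟨hz.1.le, hz.2.le.trans ?_⟩
      gcongr
  rw [volume_piece, Real.volume_Icc, h5] at h7
  have hfin : volume (A ∩ Icc ((ii j : ℝ) / 2 ^ j) ((ii j + 1) / 2 ^ j)) ≠ ⊤ := by
    apply ne_top_of_le_ne_top _ (measure_mono inter_subset_right)
    rw [Real.volume_Icc]
    exact ENNReal.ofReal_ne_top
  have h8 := ENNReal.toReal_mono ENNReal.ofReal_ne_top h7
  rw [ENNReal.toReal_add hfin ENNReal.ofReal_ne_top,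
    ENNReal.toReal_ofReal (by have := hp j; positivity),
    ENNReal.toReal_ofReal (by have := hp j; positivity)] at h8
  have h9 : (1 - (1 / 2 : ℝ) ^ n) * (1 / 2 ^ j) + (1 / 2) ^ n / 2 ^ j = 1 / 2 ^ j := by ring
  linarith

/-- A null set contains the sets `MM g` only for a family of functions `g` with a countable
dominating family. -/
theorem dom {N : Set ℝ} (hN : volume N = 0) :
    ∃ H : ℕ → ℕ → ℕ, ∀ g : ℕ → ℕ, MM g ⊆ N → ∃ k, ∀ n, g n ≤ H k n := by
  classical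
  have hE : MeasurableSet (Ioo (0 : ℝ) 1 \ toMeasurable volume N) :=
    measurableSet_Ioo.diff (measurableSet_toMeasurable _ _)
  have hE1 : (0 : ℝ≥0∞) < volume (Ioo (0 : ℝ) 1 \ toMeasurable volume N) := by
    rw [measure_sdiff_null (by rw [measure_toMeasurable]; exact hN), Real.volume_Ioo]
    norm_num
  obtain ⟨K, hKE, hKc, hK0⟩ := hE.exists_lt_isCompact hE1
  let I : ℚ × ℚ → Set ℝ := fun p => Ioo (p.1 : ℝ) p.2
  let bad : Set ℝ := ⋃ p ∈ {p : ℚ × ℚ | volume (K ∩ I p) = 0}, I p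
  have hbo : IsOpen bad := isOpen_biUnion fun _ _ => isOpen_Ioo
  have hb0 : volume (K ∩ bad) = 0 := by
    have h1 : K ∩ bad = ⋃ p ∈ {p : ℚ × ℚ | volume (K ∩ I p) = 0}, K ∩ I p := by
      simp only [bad]
      rw [inter_iUnion₂]
    rw [h1]
    exact (measure_biUnion_null_iff (Set.to_countable _)).2 fun p hp => hp
  let K' : Set ℝ := K \ bad
  have hK'c : IsCompact K' := hKc.diff hbo
  have hK'0 : volume K' ≠ 0 := by
    intro h
    have h1 : volume K ≤ volume K' + volume (K ∩ bad) := by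
      refine (measure_mono ?_).trans (measure_union_le _ _)
      intro x hx
      by_cases hxb : x ∈ bad
      · exact Or.inr ⟨hx, hxb⟩
      · exact Or.inl ⟨hx, hxb⟩
    rw [h, hb0, add_zero] at h1
    exact absurd hK0 (not_lt.2 h1)
  have hsupp : ∀ p : ℚ × ℚ, (K' ∩ I p).Nonempty → volume (K' ∩ I p) ≠ 0 := by
    rintro p ⟨x, hx1, hx2⟩ h
    apply hx1.2
    refine mem_iUnion₂.2 ⟨p, ?_, hx2⟩
    show volume (K ∩ I p) = 0
    refine le_antisymm ?_ zero_le
    calc volume (K ∩ I p) ≤ volume ((K' ∩ I p) ∪ (K ∩ bad)) := by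
          apply measure_mono
          intro y hy
          by_cases hyb : y ∈ bad
          · exact Or.inr ⟨hy.1, hyb⟩
          · exact Or.inl ⟨⟨hy.1, hyb⟩, hy.2⟩
      _ ≤ volume (K' ∩ I p) + volume (K ∩ bad) := measure_union_le _ _
      _ = 0 := by rw [h, hb0, add_zero]
  have hJ : ∀ (p : ℚ × ℚ) (n : ℕ), ∃ J : ℕ, volume (K' ∩ I p) ≠ 0 →
      ∀ j, J ≤ j → ((K' ∩ I p) ∩ UU n j).Nonempty := by
    intro p n
    by_cases h : volume (K' ∩ I p) = 0
    · exact ⟨0, fun h1 => absurd h h1⟩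
    · obtain ⟨J, hJ⟩ := meets (hK'c.measurableSet.inter measurableSet_Ioo)
        (fun x hx => (hKE hx.1.1).1) h n
      exact ⟨J, fun _ => hJ⟩
  choose J hJ using hJ
  obtain ⟨φ, hφ⟩ := exists_surjective_nat ((ℚ × ℚ) × ℕ)
  refine ⟨fun k n => J (φ k).1 n + (φ k).2, fun g hg => ?_⟩
  have hne : K'.Nonempty := nonempty_of_measure_ne_zero hK'0
  have : Nonempty K' := hne.to_subtype
  have : CompactSpace K' := isCompact_iff_compactSpace.1 hK'c
  let F : ℕ → Set K' := fun m => ⋂ n ≥ m, (Subtype.val ⁻¹' (UU n (g n)))ᶜ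
  have hFc : ∀ m, IsClosed (F m) := fun m =>
    isClosed_biInter fun n _ => ((isOpen_UU n (g n)).preimage continuous_subtype_val).isClosed_compl
  have hFU : ⋃ m, F m = Set.univ := by
    rw [eq_univ_iff_forall]
    intro x
    have h1 : (x : ℝ) ∉ MM g := fun h => (hKE x.2.1).2 (subset_toMeasurable _ _ (hg h))
    unfold MM at h1
    rw [mem_limsup_iff_frequently_mem, not_frequently, eventually_atTop] at h1
    obtain ⟨m, hm⟩ := h1
    exact mem_iUnion.2 ⟨m, mem_iInter₂.2 fun n hn => hm n hn⟩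
  obtain ⟨m, x, hx⟩ := nonempty_interior_of_iUnion_of_closed hFc hFU
  obtain ⟨V, hVo, hV⟩ := isOpen_induced_iff.1 (isOpen_interior (s := F m))
  have hxV : (x : ℝ) ∈ V := by
    rw [← hV] at hx
    exact hx
  obtain ⟨W, hW, hxW, hWV⟩ := Real.isTopologicalBasis_Ioo_rat.exists_subset_of_mem_open hxV hVo
  simp only [mem_iUnion, mem_singleton_iff, exists_prop] at hW
  obtain ⟨a, b, -, rfl⟩ := hW
  have hKI : ∀ y ∈ K' ∩ I (a, b), ∀ n ≥ m, y ∉ UU n (g n) := by
    intro y hy n hn hyU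
    have h1 : (⟨y, hy.1⟩ : K') ∈ interior (F m) := by
      rw [← hV]
      exact hWV hy.2
    exact mem_iInter₂.1 (interior_subset h1) n hn hyU
  have hvol := hsupp (a, b) ⟨x, x.2, hxW⟩
  obtain ⟨k, hk⟩ := hφ ((a, b), ∑ n ∈ Finset.range m, g n)
  refine ⟨k, fun n => ?_⟩
  show g n ≤ J (φ k).1 n + (φ k).2
  rw [hk]
  show g n ≤ J (a, b) n + ∑ n ∈ Finset.range m, g n
  by_cases hn : n < m
  · have := Finset.single_le_sum (f := g) (fun i _ => Nat.zero_le _) (Finset.mem_range.2 hn)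
    omega
  · have h1 : g n < J (a, b) n := by
      by_contra h2
      obtain ⟨y, hy1, hy2⟩ := hJ (a, b) n hvol (g n) (not_lt.1 h2)
      exact hKI y hy1 n (not_lt.1 hn) hy2
    omega

/-- Unions of fewer than `κ` Lebesgue null sets are null: `κ ≤ add(𝒩)`. -/
def NullAdditive (κ : Cardinal.{0}) : Prop :=
  ∀ 𝓐 : Set (Set ℝ), #𝓐 < κ → (∀ A ∈ 𝓐, volume A = 0) → volume (⋃₀ 𝓐) = 0

/-- There are `κ` Lebesgue null sets such that every null set is contained in one of them: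
`cof(𝒩) ≤ κ`. -/
def NullCofinal (κ : Cardinal.{0}) : Prop :=
  ∃ 𝓑 : Set (Set ℝ), #𝓑 ≤ κ ∧ (∀ B ∈ 𝓑, volume B = 0) ∧ ∀ A : Set ℝ, volume A = 0 → ∃ B ∈ 𝓑, A ⊆ B

/-- `add(𝒩) ≤ 𝔟`. -/
theorem bounded_of_add {κ : Cardinal.{0}} (hadd : NullAdditive κ) {ι : Type} (hι : #ι < κ)
    (g : ι → ℕ → ℕ) : ∃ f : ℕ → ℕ, ∀ i, ∀ᶠ n in atTop, g i n ≤ f n := by
  have h1 : volume (⋃₀ range fun i => MM (g i)) = 0 := by
    apply hadd _ (mk_range_le.trans_lt hι)
    rintro _ ⟨i, rfl⟩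
    exact volume_MM _
  obtain ⟨H, hH⟩ := dom h1
  refine ⟨fun n => ∑ k ∈ Finset.range (n + 1), H k n, fun i => ?_⟩
  obtain ⟨k, hk⟩ := hH (g i) (subset_sUnion_of_mem ⟨i, rfl⟩)
  filter_upwards [eventually_ge_atTop k] with n hn
  exact (hk n).trans (Finset.single_le_sum (f := fun k => H k n) (fun i _ => Nat.zero_le _)
    (Finset.mem_range.2 (by omega)))

/-- `𝔡 ≤ cof(𝒩)`. -/
theorem dominating {ι : Type} (N : ι → Set ℝ) (h0 : ∀ a, volume (N a) = 0)
    (hcof : ∀ M : Set ℝ, volume M = 0 → ∃ a, M ⊆ N a) :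
    ∃ D : ι × ℕ → ℕ → ℕ, ∀ g : ℕ → ℕ, ∃ p, ∀ n, g n ≤ D p n := by
  choose H hH using fun a => dom (h0 a)
  refine ⟨fun p => H p.1 p.2, fun g => ?_⟩
  obtain ⟨a, ha⟩ := hcof (MM g) (volume_MM g)
  obtain ⟨k, hk⟩ := hH a g ha
  exact ⟨(a, k), hk⟩

end Pool.Agent.Y960.NA
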