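import Pool.Agent.Y960.NA.Dom
import Pool.Agent.H752R3.SierpBasics

/-!
Generalized Sierpiński sets: the Hurewicz property, the basic step of the product construction,
and the construction of a generalized Sierpiński set with a product which is not Menger, when the
additivity and the cofinality of the null ideal are equal.
-/

set_option autoImplicit false

namespace Pool.Agent.Y960.NA

open Set Filter MeasureTheory Topology Cardinal Pool.Agent.H752R3
open scoped ENNReal

/-- `κ`-Sierpiński sets of reals: at least `κ` elements, fewer than `κ` in every Lebesgue null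
set. -/
def GenSierpinski (κ : Cardinal.{0}) (S : Set ℝ) : Prop :=
  κ ≤ #S ∧ ∀ N : Set ℝ, volume N = 0 → #(S ∩ N : Set ℝ) < κ

lemma null_of_small {κ : Cardinal.{0}} (hadd : NullAdditive κ) {A : Set ℝ} (hA : #A < κ) :
    volume A = 0 := by
  have h1 : A = ⋃₀ ((fun x : ℝ => ({x} : Set ℝ)) '' A) := by
    ext x
    simp
  rw [h1]
  apply hadd _ (mk_image_le.trans_lt hA)
  rintro _ ⟨x, -, rfl⟩
  exact measure_singleton x

/-- A set of reals with fewer than `κ` points in every null set is Hurewicz, if `κ ≤ 𝔟`. -/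
theorem hurewicz_gen {κ : Cardinal.{0}}
    (hb : ∀ (ι : Type) (g : ι → ℕ → ℕ), #ι < κ → ∃ f : ℕ → ℕ, ∀ i, ∀ᶠ n in atTop, g i n ≤ f n)
    {Y : Set ℝ} (hY : ∀ N : Set ℝ, volume N = 0 → #(Y ∩ N : Set ℝ) < κ) : HurewiczSp Y := by
  classical
  intro U hU
  -- countable subcovers by traces of open sets of reals
  have h1 : ∀ n, ∃ V : ℕ → Set ℝ, (∀ j, IsOpen (V j)) ∧ Y ⊆ ⋃ j, V j ∧
      ∀ j, ∃ u ∈ insert ∅ (U n), Subtype.val ⁻¹' V j ⊆ u := by
    intro n
    let 𝒱 : Set (Set ℝ) := {V | IsOpen V ∧ ∃ u ∈ U n, Subtype.val ⁻¹' V ⊆ u}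
    obtain ⟨T, hT1, hT2, hT3⟩ := TopologicalSpace.isOpen_sUnion_countable 𝒱 (fun V hV => hV.1)
    have hYT : Y ⊆ ⋃₀ T := by
      rw [hT3]
      intro y hy
      have : (⟨y, hy⟩ : Y) ∈ ⋃₀ U n := by rw [(hU n).2]; trivial
      obtain ⟨u, hu, hyu⟩ := this
      obtain ⟨V, hV, hVu⟩ := isOpen_induced_iff.1 ((hU n).1 u hu)
      refine ⟨V, ⟨hV, u, hu, hVu.subset⟩, ?_⟩
      have : (⟨y, hy⟩ : Y) ∈ Subtype.val ⁻¹' V := by rw [hVu]; exact hyu
      exact this
    rcases T.eq_empty_or_nonempty with he | hne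
    · refine ⟨fun _ => ∅, fun _ => isOpen_empty, ?_, fun _ => ⟨∅, mem_insert _ _, by simp⟩⟩
      rw [he] at hYT
      simpa using hYT
    · obtain ⟨V, hV⟩ := hT1.exists_eq_range hne
      refine ⟨V, fun j => (hT2 (by rw [hV]; exact ⟨j, rfl⟩)).1, ?_, fun j => ?_⟩
      · rw [hV, sUnion_range] at hYT
        exact hYT
      · obtain ⟨-, u, hu, hsub⟩ := hT2 (show V j ∈ T by rw [hV]; exact ⟨j, rfl⟩)
        exact ⟨u, mem_insert_of_mem _ hu, hsub⟩
  choose V hVo hYV u hu hVu using h1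
  -- increasing unions
  let W : ℕ → ℕ → Set ℝ := fun n k => ⋃ j ∈ Finset.range k, V n j
  have hWo : ∀ n k, IsOpen (W n k) := fun n k =>
    isOpen_biUnion fun j _ => hVo n j
  let G : ℕ → Set ℝ := fun n => ⋃ j, V n j
  have hGo : ∀ n, IsOpen (G n) := fun n => isOpen_iUnion (hVo n)
  have hsmall : ∀ n : ℕ, ∃ k, volume ((Icc (-(n : ℝ)) n ∩ G n) \ W n k) ≤ (2⁻¹ : ℝ≥0∞) ^ n := by
    intro n
    have hanti : Antitone fun k => (Icc (-(n : ℝ)) n ∩ G n) \ W n k := by
      intro k l hkl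
      apply sdiff_subset_sdiff_right
      exact biUnion_subset_biUnion_left (Finset.range_mono hkl)
    have hmeas : ∀ k, NullMeasurableSet ((Icc (-(n : ℝ)) n ∩ G n) \ W n k) volume := fun k =>
      ((measurableSet_Icc.inter (hGo n).measurableSet).diff (hWo n k).measurableSet).nullMeasurableSet
    have hfin : ∃ k, volume ((Icc (-(n : ℝ)) n ∩ G n) \ W n k) ≠ ⊤ := by
      refine ⟨0, ?_⟩
      apply ne_top_of_le_ne_top (b := volume (Icc (-(n : ℝ)) n))
      · simp
      · exact measure_mono (sdiff_subset.trans inter_subset_left)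
    have hlim := tendsto_measure_iInter_atTop hmeas hanti hfin
    have hempty : (⋂ k, (Icc (-(n : ℝ)) n ∩ G n) \ W n k) = ∅ := by
      rw [eq_empty_iff_forall_notMem]
      intro x hx
      rw [mem_iInter] at hx
      obtain ⟨j, hj⟩ := mem_iUnion.1 (hx 0).1.2
      exact (hx (j + 1)).2 (mem_iUnion₂.2 ⟨j, by simp, hj⟩)
    rw [hempty, measure_empty] at hlim
    have hpos : (0 : ℝ≥0∞) < (2⁻¹ : ℝ≥0∞) ^ n := by
      apply ENNReal.pow_pos
      simp
    exact ((hlim.eventually_lt_const hpos).exists).imp fun k hk => hk.le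
  choose k hk using hsmall
  let B : Set ℝ := limsup (fun n : ℕ => (Icc (-(n : ℝ)) n ∩ G n) \ W n (k n)) atTop
  have hB : volume B = 0 := by
    apply measure_limsup_atTop_eq_zero
    apply ne_top_of_le_ne_top (b := ∑' n : ℕ, (2⁻¹ : ℝ≥0∞) ^ n)
    · rw [ENNReal.tsum_geometric]
      norm_num
    · exact ENNReal.tsum_le_tsum hk
  -- the exceptional points
  have hidx : ∀ (y : (Y ∩ B : Set ℝ)) (n : ℕ), ∃ j, (y : ℝ) ∈ V n j := fun y n =>
    mem_iUnion.1 (hYV n y.2.1)
  choose g hg using hidx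
  obtain ⟨f, hf⟩ := hb _ g (hY B hB)
  have hin : ∀ (n j : ℕ) (y : Y), (y : ℝ) ∈ V n j → u n j ∈ U n := by
    intro n j y hy
    rcases hu n j with h3 | h3
    · have : y ∈ u n j := hVu n j hy
      rw [h3] at this
      exact absurd this (notMem_empty y)
    · exact h3
  refine ⟨fun n => ((fun j => u n j) '' (Finset.range (max (k n) (f n + 1)) : Set ℕ)) ∩ U n,
    fun n => ⟨inter_subset_right, ((Finset.finite_toSet _).image _).subset inter_subset_left⟩, ?_⟩
  intro y
  by_cases hyB : (y : ℝ) ∈ B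
  · filter_upwards [hf ⟨y, y.2, hyB⟩] with n hn
    refine ⟨u n (g ⟨y, y.2, hyB⟩ n), ⟨⟨_, ?_, rfl⟩, hin n _ y (hg _ n)⟩, hVu n _ (hg ⟨y, y.2, hyB⟩ n)⟩
    simp only [Finset.coe_range, mem_Iio, lt_max_iff]
    right
    omega
  · have h2 : ∀ᶠ n : ℕ in atTop, (y : ℝ) ∉ (Icc (-(n : ℝ)) n ∩ G n) \ W n (k n) := by
      have : (y : ℝ) ∉ limsup (fun n : ℕ => (Icc (-(n : ℝ)) n ∩ G n) \ W n (k n)) atTop := hyB
      rw [mem_limsup_iff_frequently_mem, not_frequently] at this
      exact this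
    obtain ⟨m, hm⟩ := exists_nat_ge |(y : ℝ)|
    filter_upwards [h2, eventually_ge_atTop m] with n hn hmn
    have hyI : (y : ℝ) ∈ Icc (-(n : ℝ)) n := by
      have : |(y : ℝ)| ≤ n := hm.trans (by exact_mod_cast hmn)
      exact abs_le.1 this
    have hyW : (y : ℝ) ∈ W n (k n) := by
      by_contra hcon2
      exact hn ⟨⟨hyI, hYV n y.2⟩, hcon2⟩
    obtain ⟨j, hj, hyj⟩ := mem_iUnion₂.1 hyW
    refine ⟨u n j, ⟨⟨j, ?_, rfl⟩, hin n j y hyj⟩, hVu n j hyj⟩
    simp only [Finset.coe_range, mem_Iio, lt_max_iff]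
    left
    simpa using hj

/-- The basic step. -/
theorem gen_step {κ : Cardinal.{0}} (hadd : NullAdditive κ) {S : Set ℝ} (hS : GenSierpinski κ S)
    {N : Set ℝ} (hN : volume N = 0)
    (hNm : MeasurableSet N) {Q : Set ℝ} (hQ : Q.Countable) (g : ℕ → ℕ) :
    ∃ y, y ∉ N ∧ (∀ s ∈ S, s + y ∉ Q) ∧ ∃ s ∈ S, ∃ f : ℕ → ℕ, (∀ n, g n ≤ f n) ∧
      s + y = rho (chi f) := by
  have hnc : ¬ Countable ℝ := by
    rw [← Cardinal.mk_le_aleph0_iff, not_le, Cardinal.mk_real]
    exact Cardinal.aleph0_lt_continuum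
  let e1 : ℝ ≃ᵐ (ℕ → Bool) := PolishSpace.measurableEquivNatBoolOfNotCountable hnc
  let fw : (ℕ → Bool) → ℕ → ℕ := fun w n => g n + (w n).toNat
  have hfw : Continuous fw := by
    apply continuous_pi
    intro n
    exact continuous_const.add ((continuous_of_discreteTopology (f := Bool.toNat)).comp
      (continuous_apply n : Continuous fun x : ℕ → Bool => x n))
  have hfwi : Function.Injective fw := by
    intro w w' h
    ext n
    have h1 : (w n).toNat = (w' n).toNat := by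
      have := congrFun h n
      simp only [fw] at this
      omega
    revert h1
    cases w n <;> cases w' n <;> simp
  let θ : ℝ → ℝ := fun r => rho (chi (fw (e1 r)))
  have hθc : Continuous fun w => rho (chi (fw w)) :=
    continuous_rho.comp (continuous_chi.comp hfw)
  have hθm : Measurable θ := hθc.measurable.comp e1.measurable
  have hθi : Function.Injective θ := fun x y h =>
    e1.injective (hfwi (chi_injective (rho_injective h)))
  -- Fubini
  let A : Set (ℝ × ℝ) := {p | θ p.2 - p.1 ∈ N}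
  have hA : MeasurableSet A := by
    have : Measurable fun p : ℝ × ℝ => θ p.2 - p.1 :=
      (hθm.comp measurable_snd).sub measurable_fst
    exact this hNm
  have hA0 : (volume.prod volume) A = 0 := by
    rw [Measure.prod_apply_symm hA]
    have h0 : ∀ r : ℝ, volume ((fun s : ℝ => (s, r)) ⁻¹' A) = 0 := by
      intro r
      have h1 : (fun s : ℝ => (s, r)) ⁻¹' A = (fun s => θ r - s) ⁻¹' N := rfl
      rw [h1]
      have hmp : MeasurePreserving (fun s : ℝ => θ r - s) volume volume :=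
        Measure.measurePreserving_sub_left volume (θ r)
      rw [hmp.measure_preimage hNm.nullMeasurableSet]
      exact hN
    simp [h0]
  have hae := (Measure.measure_prod_null hA).1 hA0
  -- choose `s`
  have hE : volume {s : ℝ | ¬ volume (Prod.mk s ⁻¹' A) = 0} = 0 := hae
  obtain ⟨s, hsS, hs⟩ : ∃ s ∈ S, volume (Prod.mk s ⁻¹' A) = 0 := by
    by_contra hcon
    push Not at hcon
    have h1 : S ∩ {s : ℝ | ¬ volume (Prod.mk s ⁻¹' A) = 0} = S :=
      inter_eq_left.2 fun s hs => hcon s hs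
    have h2 := hS.2 _ hE
    rw [h1] at h2
    exact absurd hS.1 (not_le.2 h2)
  -- bad parameters
  let C : ℝ → Set ℝ := fun q => {z : ℝ | z ∈ cantorSet ∧ s + q - z ∈ S}
  have hC : ∀ q, #(C q) < κ := by
    intro q
    have h1 : volume ((fun z => s + q - z) ⁻¹' cantorSet) = 0 := by
      have hmp : MeasurePreserving (fun z : ℝ => s + q - z) volume volume :=
        Measure.measurePreserving_sub_left volume (s + q)
      rw [hmp.measure_preimage isClosed_cantorSet.measurableSet.nullMeasurableSet]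
      exact volume_cantor
    have h3 : C q ⊆ (fun x => s + q - x) '' (S ∩ (fun z => s + q - z) ⁻¹' cantorSet) := by
      rintro z ⟨hz1, hz2⟩
      exact ⟨s + q - z, ⟨hz2, by simpa using hz1⟩, by ring⟩
    exact (mk_le_mk_of_subset h3).trans_lt (mk_image_le.trans_lt (hS.2 _ h1))
  have hC0 : volume (⋃ q ∈ Q, θ ⁻¹' C q) = 0 := by
    refine (measure_biUnion_null_iff hQ).2 fun q _ => ?_
    exact null_of_small hadd ((mk_preimage_of_injective θ (C q) hθi).trans_lt (hC q))
  have hbad : volume (Prod.mk s ⁻¹' A ∪ ⋃ q ∈ Q, θ ⁻¹' C q) = 0 := measure_union_null hs hC0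
  obtain ⟨r, hr⟩ : ∃ r, r ∉ Prod.mk s ⁻¹' A ∪ ⋃ q ∈ Q, θ ⁻¹' C q := by
    by_contra hcon
    push Not at hcon
    have : Prod.mk s ⁻¹' A ∪ ⋃ q ∈ Q, θ ⁻¹' C q = Set.univ := eq_univ_of_forall hcon
    rw [this] at hbad
    simp at hbad
  have hr1 : θ r - s ∉ N := fun h => hr (Or.inl h)
  have hr2 : ∀ q ∈ Q, θ r ∉ C q := fun q hq h => hr (Or.inr (mem_iUnion₂.2 ⟨q, hq, h⟩))
  refine ⟨θ r - s, hr1, ?_, s, hsS, fw (e1 r), fun n => Nat.le_add_right _ _, by ring⟩
  intro s' hs' hq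
  apply hr2 _ hq
  refine ⟨rho_mem _, ?_⟩
  have : s + (s' + (θ r - s)) - θ r = s' := by ring
  rw [this]
  exact hs'

end Pool.Agent.Y960.NA
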